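import Pool.Agent.Y718.FQ.Vals
import Pool.Agent.Results.MP_a59382_lc.CubicEquations

/-!
# The pole relation is not defined by smooth quartic double covers

Let `K` be a number field and let `Q` be a rich set of rational primes, for example the primes
`p = 1 mod 4`. A *block* is an affine space over `K`, or the set of the points `(w, z₁, …, z_n)`
with coordinates in `K` and `w ≠ 0` of a double cover `w² = f(z₁, …, z_n)`, where `n ≥ 2` and `f` is
a polynomial of degree at most four such that the quartic hypersurface defined by it in `ℙⁿ` is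
smooth.

We consider finite unions `U` of relations between `a, b ∈ K` of the following two kinds:
* `∃ z, f(a, b, z) = 0`, where `f` has degree at most three in `(a, z)` (see `CubicEquations`);
* `a` is a value of a rational function `p/q` at a point of a product of blocks; here the blocks, `p`
  and `q` depend in an arbitrary way on `b`.

If for one `b` without pole above `Q`, for which all the sets in question are blocks, all `a` with
`U(a, b)` satisfy the pole relation (that is, have no pole above `Q`), then each relation of the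
second kind holds only for finitely many `a`, the set of all `a` with `U(a, b)` is thin and it
misses infinitely many rational integers. In particular `U` is not the relation `R_K` of the
problem.

The proof for the second kind. The ring of the elements without pole above `Q` is flat: a rational
function in one variable over `K` all of whose values are in the ring is constant. On the generic
line through a point `P` of the double cover, which is a curve of genus one over the field `K(e)` of
rational functions, one takes the points `P + 2ⁱ D`, `D` the difference of `P` and its conjugate.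
A rational function on the double cover with values in a flat set has constant values at these
points. There is a place of `K(e)` at which `2 D` specializes to zero, so all these values are the
value at `P`, and the function is constant.
-/

set_option autoImplicit false

namespace Pool.Agent.Results.MP_a59382_lc.QuarticDoubleCovers

open MvPolynomial Pool.Agent.TH766.HP Pool.Agent.TH783.CE
open Pool.Agent.Results.MP_a59382_lc.CubicEquations (PoleRel)

/-- A block: an affine space over `K`, or the set of the points `y = (w, z₁, …, z_n)` with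
coordinates in `K` and `w ≠ 0` of a double cover `w² = F(1, z₁, …, z_n)`, where `n ≥ 2` and `F` is
a form of degree four over `K` such that the hypersurface `F = 0` in `ℙⁿ` is smooth. The vector
`(1, z₁, …, z_n)` is `Function.update y 0 1`. -/
def Block {K : Type} [Field K] {n : ℕ} (S : Set (Fin (n + 1) → K)) : Prop :=
  S = Set.univ ∨ (2 ≤ n ∧ ∃ F : MvPolynomial (Fin (n + 1)) K, F.IsHomogeneous 4 ∧
    (∀ y : Fin (n + 1) → AlgebraicClosure K, (∀ i, aeval y (pderiv i F) = 0) → y = 0) ∧
    S = {y | y 0 ^ 2 = eval (Function.update y 0 1) F ∧ y 0 ≠ 0})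

/-- The values of `p / q` at the points `x = (x₁, …, x_r)` with `x_j ∈ S_j` for all `j` and
`q(x) ≠ 0`. -/
def values {K : Type} [Field K] {r : ℕ} {n : Fin r → ℕ} (S : ∀ j, Set (Fin (n j + 1) → K))
    (p q : MvPolynomial ((j : Fin r) × Fin (n j + 1)) K) : Set K :=
  {t | ∃ x : (j : Fin r) × Fin (n j + 1) → K, (∀ j, (fun i => x ⟨j, i⟩) ∈ S j) ∧
    eval x q ≠ 0 ∧ t = eval x p / eval x q}

theorem result :
    -- for every number field the relation `R_K` is not a finite union of such relations
    (∀ (K : Type) [Field K] [NumberField K]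
      (k : ℕ) (n : Fin k → ℕ) (f : ∀ i, MvPolynomial (Fin 2 ⊕ Fin (n i)) K),
      (∀ i, ∀ m ∈ (f i).support, m (Sum.inl 0) + ∑ j, m (Sum.inr j) ≤ 3) →
      ∀ (l : ℕ) (r : Fin l → ℕ) (d : ∀ i, Fin (r i) → ℕ)
        (S : ∀ i, K → ∀ j, Set (Fin (d i j + 1) → K))
        (p q : ∀ i, K → MvPolynomial ((j : Fin (r i)) × Fin (d i j + 1)) K),
      (∃ b ∈ NoPole K {p | p % 4 = 1}, ∀ i j, Block (S i b j)) →
      ¬ ∀ a b : K, ((∃ i, ∃ z : Fin (n i) → K, eval (Sum.elim ![a, b] z) (f i) = 0) ∨
          ∃ i, a ∈ values (S i b) (p i b) (q i b)) ↔ PoleRel K {p | p % 4 = 1} a b) ∧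
    -- the general form, for every rich set of primes
    (∀ (K : Type) [Field K] [NumberField K] (Q : Set ℕ), Rich Q →
      ∀ (k : ℕ) (n : Fin k → ℕ) (f : ∀ i, MvPolynomial (Fin 2 ⊕ Fin (n i)) K),
      (∀ i, ∀ m ∈ (f i).support, m (Sum.inl 0) + ∑ j, m (Sum.inr j) ≤ 3) →
      ∀ (l : ℕ) (r : Fin l → ℕ) (d : ∀ i, Fin (r i) → ℕ)
        (S : ∀ i, K → ∀ j, Set (Fin (d i j + 1) → K))
        (p q : ∀ i, K → MvPolynomial ((j : Fin (r i)) × Fin (d i j + 1)) K),
      ∀ b ∈ NoPole K Q, (∀ i j, Block (S i b j)) →
      (∀ a : K, ((∃ i, ∃ z : Fin (n i) → K, eval (Sum.elim ![a, b] z) (f i) = 0) ∨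
          ∃ i, a ∈ values (S i b) (p i b) (q i b)) → PoleRel K Q a b) →
      (∀ i, (values (S i b) (p i b) (q i b)).Finite) ∧
      Thin {a : K | (∃ i, ∃ z : Fin (n i) → K, eval (Sum.elim ![a, b] z) (f i) = 0) ∨
          ∃ i, a ∈ values (S i b) (p i b) (q i b)} ∧
      ∀ B : ℤ, ∃ m : ℤ, B < m ∧ PoleRel K Q (m : K) b ∧
        ¬ ((∃ i, ∃ z : Fin (n i) → K, eval (Sum.elim ![(m : K), b] z) (f i) = 0) ∨
          ∃ i, (m : K) ∈ values (S i b) (p i b) (q i b))) := by
  have main : ∀ (K : Type) [Field K] [NumberField K] (Q : Set ℕ), Rich Q →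
      ∀ (k : ℕ) (n : Fin k → ℕ) (f : ∀ i, MvPolynomial (Fin 2 ⊕ Fin (n i)) K),
      (∀ i, ∀ m ∈ (f i).support, m (Sum.inl 0) + ∑ j, m (Sum.inr j) ≤ 3) →
      ∀ (l : ℕ) (r : Fin l → ℕ) (d : ∀ i, Fin (r i) → ℕ)
        (S : ∀ i, K → ∀ j, Set (Fin (d i j + 1) → K))
        (p q : ∀ i, K → MvPolynomial ((j : Fin (r i)) × Fin (d i j + 1)) K),
      ∀ b ∈ NoPole K Q, (∀ i j, Block (S i b j)) →
      (∀ a : K, ((∃ i, ∃ z : Fin (n i) → K, eval (Sum.elim ![a, b] z) (f i) = 0) ∨
          ∃ i, a ∈ values (S i b) (p i b) (q i b)) → PoleRel K Q a b) →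
      (∀ i, (values (S i b) (p i b) (q i b)).Finite) ∧
      Thin {a : K | (∃ i, ∃ z : Fin (n i) → K, eval (Sum.elim ![a, b] z) (f i) = 0) ∨
          ∃ i, a ∈ values (S i b) (p i b) (q i b)} ∧
      ∀ B : ℤ, ∃ m : ℤ, B < m ∧ PoleRel K Q (m : K) b ∧
        ¬ ((∃ i, ∃ z : Fin (n i) → K, eval (Sum.elim ![(m : K), b] z) (f i) = 0) ∨
          ∃ i, (m : K) ∈ values (S i b) (p i b) (q i b)) := by
    intro K _ _ Q hQ k n f hf l r d S p q b hb hS h
    obtain ⟨φ⟩ : Nonempty (K →+* ℂ) := inferInstance
    have hno : ∀ a : K, PoleRel K Q a b → a ∈ NoPole K Q := by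
      intro a ha v hv
      by_contra hcon
      exact absurd (ha v hv (not_le.1 hcon)) (not_lt.2 (hb v hv))
    have hfin : ∀ i, (values (S i b) (p i b) (q i b)).Finite := fun i =>
      Pool.Agent.Y718.FQ.fin_vals (flat_noPole (K := K) hQ) φ (hS i) _ _
        fun t ht => hno t (h t (Or.inr ⟨i, ht⟩))
    have hthin : Thin {a : K | (∃ i, ∃ z : Fin (n i) → K, eval (Sum.elim ![a, b] z) (f i) = 0) ∨
        ∃ i, a ∈ values (S i b) (p i b) (q i b)} := by
      have h1 := thin_union (flat_noPole (K := K) hQ) b f hf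
        (fun a ha => hno a (h a (Or.inl ha)))
      have h2 : Thin (⋃ i, values (S i b) (p i b) (q i b)) :=
        Thin.of_finite (Set.finite_iUnion hfin)
      refine (h1.union h2).mono ?_
      rintro a (ha | ⟨i, ha⟩)
      · exact Or.inl ha
      · exact Or.inr (Set.mem_iUnion.2 ⟨i, ha⟩)
    refine ⟨hfin, hthin, fun B => ?_⟩
    obtain ⟨m, hm, hm'⟩ := hthin.exists_int B
    refine ⟨m, hm, fun v _ hv' => ?_, hm'⟩
    exfalso
    have h1 : v.valuation K ((m : NumberField.RingOfIntegers K) : K) ≤ 1 :=
      v.valuation_le_one (K := K) (m : NumberField.RingOfIntegers K)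
    have h2 : ((m : NumberField.RingOfIntegers K) : K) = (m : K) := by simp
    rw [h2] at h1
    exact absurd hv' (not_lt.2 h1)
  refine ⟨fun K _ _ k n f hf l r d S p q ⟨b, hb, hS⟩ hiff => ?_, main⟩
  obtain ⟨-, -, h1⟩ := main K {p | p % 4 = 1} four k n f hf l r d S p q b hb hS
    fun a ha => (hiff a b).1 ha
  obtain ⟨m, -, hm1, hm2⟩ := h1 0
  exact hm2 ((hiff m b).2 hm1)

end Pool.Agent.Results.MP_a59382_lc.QuarticDoubleCovers
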